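import Pool.Agent.RCM.Stmts

/-! RCM, row BAR (arithmetic). -/

set_option autoImplicit false

namespace Pool.Agent.RCM.H86

/-- BAR -/
theorem bar : BarStmt := by
  intro z h hz hle
  by_contra hlt
  rw [not_le] at hlt
  by_cases h5 : z ≤ 4
  · interval_cases z
    · norm_num at hle hlt
      have : h = 0 := by omega
      subst this
      omega
    · norm_num at hle hlt
      interval_cases h <;> omega
    · norm_num at hle hlt
      interval_cases h <;> omega
    · norm_num at hle hlt
      interval_cases h <;> omega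
  · obtain ⟨n, rfl⟩ : ∃ n, z = n + 5 := ⟨z - 5, by omega⟩
    have e1 : n + 5 - 1 = n + 4 := by omega
    have e2 : n + 4 - 1 = n + 3 := by omega
    have e3 : min (n + 4) 4 = 4 := by omega
    have e4 : min (n + 5) 4 = 4 := by omega
    rw [e1, e2, e3] at hle
    rw [e1, e4] at hlt
    obtain ⟨t, ht⟩ : ∃ t, (n + 4) * (n + 3) = 2 * t := by
      have := Nat.even_mul_succ_self (n + 3)
      obtain ⟨t, ht⟩ := this
      exact ⟨t, by linarith [ht, mul_comm (n + 3) (n + 3 + 1)]⟩
    have e5 : (n + 4) * (n + 3) / 2 = t := by rw [ht]; omega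
    have e6 : (n + 5) * (n + 4) / 2 = t + (n + 4) := by
      have : (n + 5) * (n + 4) = 2 * (t + (n + 4)) := by nlinarith
      rw [this]
      omega
    rw [e5] at hle
    rw [e6] at hlt
    rcases Nat.lt_or_ge h (t + 5) with h1 | h1
    · nlinarith
    · obtain ⟨s, rfl⟩ : ∃ s, h = t + 4 + s := ⟨h - (t + 4), by omega⟩
      have hs : s ≤ n + 3 := by omega
      nlinarith [Nat.mul_le_mul hs hs, Nat.mul_le_mul hs (le_refl t)]

end Pool.Agent.RCM.H86
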